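import Pool.Agent.Helper72.LSr.CEDef

/-!
# Piece LR-S3a of PROJECT LSR: deleting vertices of minimum degree
-/

namespace Pool.Agent.Helper51.LSr

open Finset
open scoped Classical
open Pool.Agent.Helper72.LSr

variable {V : Type} {j : ℕ} {G : SimpleGraph V} {S : Finset V} {k A B : ℕ}

theorem mindeg_delete (k A B : ℕ) (hk : 1 ≤ k) (G : SimpleGraph V) (b : ℕ) (N : Finset V)
    (hN : (N.card : ℤ) = EE k A B + b)
    (he : 2 * es k A B 3 + 2 * b * (EE k A B - k) + b * (b + 1) ≤ 2 * K G N 2) :
    ∃ N' : Finset V, N' ⊆ N ∧ (N'.card : ℤ) = EE k A B ∧ es k A B 3 ≤ K G N' 2 := by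
  induction b generalizing N with
  | zero =>
    refine ⟨N, Subset.refl _, ?_, ?_⟩
    · rw [hN]; push_cast; ring
    · push_cast at he; linarith
  | succ b ih =>
    have hE0 : 0 ≤ EE k A B := EE_nonneg k A B
    have hcard : 0 < N.card := by
      have h1 : (0 : ℤ) < (N.card : ℤ) := by
        rw [hN]; push_cast
        have : (0 : ℤ) ≤ (b : ℤ) := Int.natCast_nonneg b
        linarith
      exact_mod_cast h1
    obtain ⟨v, hv, hmin⟩ := exists_min_image N (fun v => (nb G N v).card) (card_pos.1 hcard)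
    -- the minimum degree
    set δ : ℤ := ((nb G N v).card : ℤ) with hδ
    have hδ0 : 0 ≤ δ := Int.natCast_nonneg _
    have hsum : (N.card : ℤ) * δ ≤ 2 * K G N 2 := by
      rw [two_K_two, ← nsmul_eq_mul]
      apply card_nsmul_le_sum
      intro x hx
      rw [hδ]
      exact_mod_cast hmin x hx
    have hK : K G N 2 = K G (N.erase v) 2 + δ := by
      rw [show (2 : ℕ) = 1 + 1 from rfl, K_erase G hv 1, K_one]
    have hKe0 : 0 ≤ K G (N.erase v) 2 := K_nonneg G _ 2
    have hle := two_es3_le k A B
    have hk' : (1 : ℤ) ≤ (k : ℤ) := by exact_mod_cast hk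
    have hb0 : (0 : ℤ) ≤ (b : ℤ) := Int.natCast_nonneg b
    push_cast at he hN
    have hce : ((N.erase v).card : ℤ) = EE k A B + b := by
      have h1 := card_erase_add_one hv
      have h2 : ((N.erase v).card : ℤ) + 1 = (N.card : ℤ) := by exact_mod_cast h1
      linarith
    have hgoal : 2 * es k A B 3 + 2 * b * (EE k A B - k) + b * (b + 1)
        ≤ 2 * K G (N.erase v) 2 := by
      set E : ℤ := EE k A B with hEdef
      by_cases h1 : E + (b + 1) ≤ 1
      · have hE : E = 0 := by linarith
        have hb : (b : ℤ) = 0 := by linarith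
        rw [hE] at hle
        rw [hE, hb]
        nlinarith
      · push Not at h1
        have h2 : 0 ≤ E + (b + 1) - 2 := by linarith
        rw [hN] at hsum
        have h3 : (E + (b + 1) - 2) * (2 * es k A B 3 + 2 * (b + 1) * (E - k)
            + (b + 1) * (b + 1 + 1)) ≤ (E + (b + 1) - 2) * (2 * K G N 2) :=
          mul_le_mul_of_nonneg_left he h2
        have h4 : (E + (b + 1)) * (2 * es k A B 3 + 2 * b * (E - k) + b * (b + 1))
            ≤ (E + (b + 1)) * (2 * K G (N.erase v) 2) := by
          have h5 : 0 ≤ (b + 1 : ℤ) * ((k : ℤ) - 1) :=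
            mul_nonneg (by linarith) (by linarith)
          have h6 : K G (N.erase v) 2 = K G N 2 - δ := by linarith
          rw [h6]
          nlinarith
        exact le_of_mul_le_mul_left h4 (by linarith)
    obtain ⟨N', hN', hc', he'⟩ := ih (N.erase v) hce hgoal
    exact ⟨N', hN'.trans (erase_subset _ _), hc', he'⟩

theorem clique_ge_EE (k A B : ℕ) (hk : 1 ≤ k) (hAB : 1 ≤ A + B) (th0 : ∀ n m, TH V j n m)
    (G : SimpleGraph V) (N : Finset V) (hN : (N.card : ℤ) = EE k A B)
    (he : es k A B 3 ≤ K G N 2) : es k A B (j + 2) ≤ K G N (j + 1) := by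
  have hk' : (1 : ℤ) ≤ (k : ℤ) := by exact_mod_cast hk
  rcases A with _ | A
  · rcases B with _ | B
    · omega
    · have hnu : nu k 0 B (EE k 0 (B + 1)) = k + 1 := by
        unfold nu; rw [EE_sB]; ring
      have hth : th k 0 B (EE k 0 (B + 1)) (es k 0 (B + 1) 3) = 0 := by
        unfold th; rw [hnu, es3_sB]; ring
      have h := th0 (EE k 0 (B + 1)) (es k 0 (B + 1) 3) G N hN he k 0 B hk
        (by unfold rho; rw [hnu, hth]; nlinarith) (by unfold gg; rw [hnu, hth]; nlinarith)
      unfold Vl at h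
      rw [hnu, hth] at h
      have h2 : es k 0 (B + 1) (j + 2) = es k 0 B (j + 2) + (k + 1) * es k 0 B (j + 1) :=
        es_sB k 0 B (j + 1)
      rw [h2]
      linarith
  · have hnu : nu k A B (EE k (A + 1) B) = k := by
      unfold nu; rw [EE_sA]; ring
    have hth : th k A B (EE k (A + 1) B) (es k (A + 1) B 3) = 0 := by
      unfold th; rw [hnu, es3_sA]; ring
    have h := th0 (EE k (A + 1) B) (es k (A + 1) B 3) G N hN he k A B hk
      (by unfold rho; rw [hnu, hth]; nlinarith) (by unfold gg; rw [hnu, hth]; nlinarith)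
    unfold Vl at h
    rw [hnu, hth] at h
    have h2 : es k (A + 1) B (j + 2) = es k A B (j + 2) + k * es k A B (j + 1) :=
      es_sA k A B (j + 1)
    rw [h2]
    linarith

end Pool.Agent.Helper51.LSr
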